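import Pool.Agent.H59.PG.Stmts

/-!
# Parity games: choice of one move of the player
-/

set_option autoImplicit false

namespace Pool.PG.CHDH

open TMLib Filter

lemma vx_of_le {g : Game} {u : ℕ} (h : g.length ≤ u) : vx g u = ((false, 0), []) := by
  unfold vx
  rw [List.getD_eq_getElem?_getD, List.getElem?_eq_none h]
  rfl

lemma vx_res {g : Game} {j w : ℕ} (hj : j < g.length) (u : ℕ) :
    vx (res g j w) u = if u = j then ((vx g u).1, [w]) else vx g u := by
  by_cases hu : u < g.length
  · have e : vx (res g j w) u = (res g j w).getD u ((false, 0), []) := rfl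
    rw [e, res, List.getD_eq_getElem?_getD, List.getElem?_map, List.getElem?_range hu]
    rfl
  · have hl : (res g j w).length = g.length := by simp [res]
    rw [vx_of_le (by omega), if_neg (by omega), vx_of_le (by omega)]

lemma len_res (g : Game) (j w : ℕ) : (res g j w).length = g.length := by simp [res]

lemma own_res {g : Game} {j w : ℕ} (hj : j < g.length) (u : ℕ) :
    own (res g j w) u = own g u := by
  unfold own
  rw [vx_res hj]
  split_ifs <;> rfl

lemma pri_res {g : Game} {j w : ℕ} (hj : j < g.length) (u : ℕ) :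
    pri (res g j w) u = pri g u := by
  unfold pri
  rw [vx_res hj]
  split_ifs <;> rfl

lemma suc_res_self {g : Game} {j w : ℕ} (hj : j < g.length) : suc (res g j w) j = [w] := by
  unfold suc
  rw [vx_res hj, if_pos rfl]

lemma suc_res_ne {g : Game} {j w u : ℕ} (hj : j < g.length) (hu : u ≠ j) :
    suc (res g j w) u = suc g u := by
  unfold suc
  rw [vx_res hj, if_neg hu]

lemma suc_res_sub {g : Game} {j w : ℕ} (hj : j < g.length) (hw : w ∈ suc g j) (u : ℕ) :
    ∀ x ∈ suc (res g j w) u, x ∈ suc g u := by
  intro x hx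
  by_cases hu : u = j
  · subst hu
    rw [suc_res_self hj] at hx
    rw [List.mem_singleton.mp hx]
    exact hw
  · rwa [suc_res_ne hj hu] at hx

lemma valid_res {g : Game} {j w : ℕ} (hg : Valid g) (hj : j < g.length) (hw : w ∈ suc g j) :
    Valid (res g j w) := by
  intro u hu
  rw [len_res] at hu ⊢
  by_cases h : u = j
  · subst h
    rw [suc_res_self hj]
    refine ⟨by simp, ?_⟩
    intro x hx
    rw [List.mem_singleton.mp hx]
    exact (hg u hj).2 w hw
  · rw [suc_res_ne hj h]
    exact hg u hu

lemma sz_mem2 {a : ℕ} {l : List ℕ} (h : a ∈ l) : sz a + 2 ≤ sz l := by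
  induction l with
  | nil => simp at h
  | cons b l ih =>
    have h1 := sz_pos b
    have h2 := sz_pos l
    rcases List.mem_cons.1 h with rfl | h
    · rw [sz_cons]; omega
    · have := ih h
      rw [sz_cons]; omega

lemma eq_map_range (g : Game) : g = (List.range g.length).map (vx g) := by
  apply List.ext_getElem?
  intro i
  rw [List.getElem?_map]
  by_cases hi : i < g.length
  · rw [List.getElem?_range hi]
    show g[i]? = some (vx g i)
    unfold vx
    rw [List.getD_eq_getElem?_getD, List.getElem?_eq_getElem hi]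
    rfl
  · have h1 : (List.range g.length)[i]? = none := List.getElem?_eq_none (by simp; omega)
    rw [h1, List.getElem?_eq_none (by omega)]
    rfl

lemma sz_map_le {α : Type} [Enc α] (l : List ℕ) (f h : ℕ → α) (hfh : ∀ a, sz (f a) ≤ sz (h a)) :
    sz (l.map f) ≤ sz (l.map h) := by
  induction l with
  | nil => exact le_refl _
  | cons a l ih =>
    rw [List.map_cons, List.map_cons, sz_cons, sz_cons]
    have := hfh a
    omega

lemma sz_res_le {g : Game} {j w : ℕ} (hw : w ∈ suc g j) : sz (res g j w) ≤ sz g := by
  conv_rhs => rw [eq_map_range g]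
  unfold res
  apply sz_map_le
  intro u
  split_ifs with hu
  · subst hu
    have h1 : sz ((vx g u).1, [w]) = 1 + sz (vx g u).1 + (1 + sz w + 1) := rfl
    have h2 : sz (vx g u) = 1 + sz (vx g u).1 + sz (vx g u).2 := rfl
    have h3 : sz w + 2 ≤ sz (vx g u).2 := sz_mem2 hw
    rw [h1, h2]
    omega
  · exact le_refl _

lemma vx_mem {g : Game} {j : ℕ} (hj : j < g.length) : vx g j ∈ g := by
  unfold vx
  rw [List.getD_eq_getElem?_getD, List.getElem?_eq_getElem hj]
  exact List.getElem_mem hj

lemma len_suc_le {g : Game} {j : ℕ} (hj : j < g.length) : (suc g j).length ≤ sz g := by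
  have h1 := length_lt_sz (suc g j)
  have h2 : sz (vx g j) = 1 + sz (vx g j).1 + sz (suc g j) := rfl
  have h3 := sz_le_of_mem (vx_mem hj)
  omega

lemma hist (x : ℕ → ℕ) (n : ℕ) :
    (List.range (n + 1)).map x = (List.range n).map x ++ [x n] := by
  rw [List.range_succ, List.map_append]
  rfl

lemma play_lt {g : Game} (hg : Valid g) {v : ℕ} (hv : v < g.length) {x : ℕ → ℕ}
    (hx : Play g v x) : ∀ n, x n < g.length := by
  intro n
  induction n with
  | zero => rw [hx.1]; exact hv
  | succ n ih => exact (hg _ ih).2 _ (hx.2 n)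

lemma wonBy_congr {g t : Game} (h : ∀ u, pri t u = pri g u) {i : Bool} {x : ℕ → ℕ}
    (hx : WonBy t i x) : WonBy g i x := by
  obtain ⟨p, h1, h2, h3⟩ := hx
  refine ⟨p, ?_, ?_, h3⟩
  · simpa only [h] using h1
  · simpa only [h] using h2

/-- A strategy of the game with fewer choices of the player is one in the game. -/
lemma win_of_res {g : Game} {j w v : ℕ} (hg : Valid g) (hj : j < g.length) (hv : v < g.length)
    (ho : own g j = true) (hw : w ∈ suc g j) (h : Win (res g j w) true v) : Win g true v := by
  obtain ⟨σ, hσ, hx⟩ := h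
  refine ⟨σ, ?_, ?_⟩
  · intro h u hu ho'
    have := hσ h u (by rw [len_res]; exact hu) (by rw [own_res hj]; exact ho')
    exact suc_res_sub hj hw u _ this
  · intro x hp hf
    have hlt := play_lt hg hv hp
    have hf' : Follows (res g j w) true σ x := fun n hn => hf n (by rwa [own_res hj] at hn)
    have hp' : Play (res g j w) v x := by
      refine ⟨hp.1, fun n => ?_⟩
      by_cases hn : x n = j
      · have e := hf n (by rw [hn]; exact ho)
        rw [e, hist]
        exact hσ _ (x n) (by rw [len_res]; exact hlt n) (by rw [own_res hj, hn]; exact ho)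
      · rw [suc_res_ne hj hn]
        exact hp.2 n
    exact wonBy_congr (pri_res hj) (hx x hp' hf')

/-- Fix the move of a positional solution. -/
lemma win_res {g : Game} {W : ℕ → Bool} {σ : ℕ → ℕ} (hs : Sol g W σ) {j v : ℕ}
    (hj : j < g.length) (hv : v < g.length) (hW : W v = true) :
    Win (res g j (σ j)) true v := by
  have hσj := hs.mem j hj
  refine ⟨fun h => σ (h.getLastD 0), ?_, ?_⟩
  · intro h u hu ho
    rw [len_res] at hu
    have e : (h ++ [u]).getLastD 0 = u := by simp
    show σ ((h ++ [u]).getLastD 0) ∈ _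
    rw [e]
    by_cases huj : u = j
    · subst huj
      rw [suc_res_self hj]
      exact List.mem_singleton.mpr rfl
    · rw [suc_res_ne hj huj]
      exact hs.mem u hu
  · intro x hp hf
    have hp' : Play g v x := ⟨hp.1, fun n => suc_res_sub hj hσj _ _ (hp.2 n)⟩
    have h1 := hs.won v hv x hp' (by
      intro n hn
      have := hf n (by rw [own_res hj, hn]; exact hW)
      rw [this, hist]
      show σ (((List.range n).map x ++ [x n]).getLastD 0) = σ (x n)
      simp)
    rw [hW] at h1
    exact wonBy_congr (fun u => (pri_res (w := σ j) hj u).symm) h1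

end Pool.PG.CHDH

namespace Pool.PG

open TMLib Filter CHDH

theorem chd_row (h1 : SOLStmt) (_h2 : WINStmt) : CHDStmt := by
  intro g j v hg hj hv
  have hwin : ∀ (t : Game) (u : ℕ), win t u = true ↔ Win t true u := by
    intro t u
    unfold win
    exact @decide_eq_true_iff _ (Classical.propDecidable _)
  cases ho : own g j with
  | false =>
    have e : chd g j = [g] := by unfold chd; rw [ho]; rfl
    rw [e]
    refine ⟨?_, ?_, ?_⟩
    · intro t ht
      rw [List.mem_singleton.mp ht]
      exact ⟨hg, rfl, le_refl _, fun u => ⟨rfl, rfl⟩, fun u _ => rfl, fun _ => rfl,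
        fun h => absurd h (by simp)⟩
    · exact sz_pos g
    · simp
  | true =>
    have e : chd g j = (suc g j).map (res g j) := by unfold chd; rw [ho]; rfl
    rw [e]
    refine ⟨?_, ?_, ?_⟩
    · intro t ht
      obtain ⟨w, hw, rfl⟩ := List.mem_map.mp ht
      exact ⟨valid_res hg hj hw, len_res g j w, sz_res_le hw,
        fun u => ⟨own_res hj u, pri_res hj u⟩, fun u hu => suc_res_ne hj hu,
        fun h => absurd h (by simp), fun _ => ⟨w, suc_res_self hj⟩⟩
    · rw [List.length_map]
      exact len_suc_le hj
    · constructor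
      · intro hW
        obtain ⟨⟨σ, hσ⟩, _⟩ := h1 g hg
        refine ⟨res g j (σ j), List.mem_map.mpr ⟨σ j, hσ.mem j hj, rfl⟩, ?_⟩
        exact (hwin _ _).mpr (win_res hσ hj hv hW)
      · rintro ⟨t, ht, hW⟩
        obtain ⟨w, hw, rfl⟩ := List.mem_map.mp ht
        exact (hwin _ _).mpr (win_of_res hg hj hv ho hw ((hwin _ _).mp hW))

end Pool.PG
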