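import Pool.Agent.H59.PG.Stmts

/-!
# Parity games: some code word agrees with the labels at most half of the time
-/

set_option autoImplicit false

namespace Pool.PG.WORH

open TMLib Filter

lemma sum_range_map (n : ℕ) (f : ℕ → ℕ) :
    ((List.range n).map f).sum = ∑ x ∈ Finset.range n, f x := by
  induction n with
  | zero => rfl
  | succ n ih =>
    rw [List.range_succ, List.map_append, List.sum_append, ih, Finset.sum_range_succ]
    simp

/-- number of the labels `b` in the part `x` -/
def cnt (f : List Bool) (s x : ℕ) (b : Bool) : ℕ :=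
  ((List.range s).filter fun u => f.getD (x * s + u) false == b).length

lemma cnt_add (f : List Bool) (s x : ℕ) : cnt f s x true + cnt f s x false = s := by
  unfold cnt
  have h := List.length_eq_countP_add_countP (fun u => f.getD (x * s + u) false == true)
    (l := List.range s)
  rw [List.length_range, List.countP_eq_length_filter, List.countP_eq_length_filter] at h
  have e : (fun a => decide ¬((f.getD (x * s + a) false == true) = true)) =
      fun u => f.getD (x * s + u) false == false := by
    funext a
    cases f.getD (x * s + a) false <;> rfl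
  rw [e] at h
  exact h.symm

/-- number of labels `true` minus number of labels `false` -/
def dif (f : List Bool) (s x : ℕ) : ℤ := (cnt f s x true : ℤ) - cnt f s x false

lemma one_le_dif_sq {f : List Bool} {s : ℕ} (hs : Odd s) (x : ℕ) : 1 ≤ dif f s x ^ 2 := by
  have h := cnt_add f s x
  have h0 : dif f s x ≠ 0 := by
    intro h0
    unfold dif at h0
    obtain ⟨k, hk⟩ := hs
    omega
  have := sq_nonneg (dif f s x)
  have h2 : dif f s x ^ 2 ≠ 0 := pow_ne_zero 2 h0
  omega

lemma two_agr (f : List Bool) (s N : ℕ) (c : List Bool) (hc : c.length = N) :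
    (2 * agr f s c : ℤ) = N * s +
      ∑ x ∈ Finset.range N, if c.getD x false = true then dif f s x else - dif f s x := by
  unfold agr
  rw [hc, sum_range_map]
  push_cast
  rw [Finset.mul_sum]
  have e : (N : ℤ) * s = ∑ _x ∈ Finset.range N, (s : ℤ) := by simp
  rw [e, ← Finset.sum_add_distrib]
  refine Finset.sum_congr rfl fun x _ => ?_
  have h := cnt_add f s x
  have h' : (cnt f s x true : ℤ) + cnt f s x false = s := by exact_mod_cast h
  cases hb : c.getD x false with
  | true =>
    show 2 * (cnt f s x true : ℤ) = s + if true = true then dif f s x else - dif f s x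
    rw [if_pos rfl]
    unfold dif
    linarith
  | false =>
    show 2 * (cnt f s x false : ℤ) = s + if false = true then dif f s x else - dif f s x
    rw [if_neg (by simp)]
    unfold dif
    linarith

lemma exists_le_of_sum_le (l : List ℤ) (K : ℤ) (hl : l ≠ []) (h : (l.length : ℤ) * K ≤ l.sum) :
    ∃ a ∈ l, K ≤ a := by
  by_contra hcon
  push Not at hcon
  have : ∀ l : List ℤ, l ≠ [] → (∀ a ∈ l, a < K) → l.sum < (l.length : ℤ) * K := by
    intro l
    induction l with
    | nil => intro h; exact absurd rfl h
    | cons a l ih =>
      intro _ h2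
      have ha := h2 a List.mem_cons_self
      rw [List.sum_cons, List.length_cons]
      push_cast
      by_cases hl : l = []
      · subst hl
        simp only [List.sum_nil, List.length_nil, Nat.cast_zero]
        linarith
      · have := ih hl fun b hb => h2 b (List.mem_cons_of_mem _ hb)
        linarith
  exact absurd (this l hl hcon) (not_lt.mpr h)

end Pool.PG.WORH

namespace Pool.PG

open TMLib Filter WORH

theorem wor_row (h1 : HADStmt) (h2 : AGMStmt) : WORStmt := by
  intro j s f hs C hC
  obtain ⟨hlen, hrow, -, hpar⟩ := h1 j
  obtain ⟨N, hN⟩ : ∃ N, N = 2 ^ j := ⟨_, rfl⟩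
  rw [← hN] at hlen hrow hpar
  have hN1 : 1 ≤ N := by rw [hN]; exact Nat.one_le_two_pow
  have hpar' := hpar (dif f s)
  obtain ⟨S, hS⟩ : ∃ S : List Bool → ℤ, S = fun r : List Bool => ∑ x ∈ Finset.range N,
      if r.getD x false = true then dif f s x else - dif f s x := ⟨_, rfl⟩
  have hpar2 : ((hd j).map fun r => S r ^ 2).sum = 2 ^ j * ∑ x ∈ Finset.range N, dif f s x ^ 2 := by
    rw [hS]
    exact hpar'
  have hNN : (N : ℤ) * N ≤ ((hd j).map fun r => S r ^ 2).sum := by
    rw [hpar2, hN]
    push_cast
    refine mul_le_mul_of_nonneg_left ?_ (by positivity)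
    calc ((2 : ℤ) ^ j) = ∑ _x ∈ Finset.range (2 ^ j), (1 : ℤ) := by simp
      _ ≤ _ := Finset.sum_le_sum fun x _ => one_le_dif_sq hs x
  obtain ⟨a, ha, haN⟩ := exists_le_of_sum_le ((hd j).map fun r => S r ^ 2) N (by
    intro h
    have h3 := congrArg List.length h
    rw [List.length_map, hlen, List.length_nil] at h3
    omega) (by rw [List.length_map, hlen]; exact hNN)
  obtain ⟨r, hr, rfl⟩ := List.mem_map.mp ha
  have hrl := hrow r hr
  -- the better one of the row and its negative
  have key : ∃ c ∈ C, (2 * agr f s c : ℝ) + Real.sqrt (2 ^ j) ≤ 2 ^ j * s := by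
    have hsq : Real.sqrt (2 ^ j) ≤ |(S r : ℝ)| := by
      rw [← Real.sqrt_sq_eq_abs]
      apply Real.sqrt_le_sqrt
      have h3 : ((N : ℤ) : ℝ) ≤ ((S r ^ 2 : ℤ) : ℝ) := by exact_mod_cast haN
      push_cast at h3
      rw [hN] at h3
      push_cast at h3
      exact h3
    have hNr : (N : ℝ) = 2 ^ j := by rw [hN]; push_cast; rfl
    rcases le_total (S r) 0 with h0 | h0
    · refine ⟨r, ?_, ?_⟩
      · rw [hC]
        exact List.mem_append_left _ hr
      · have e := two_agr f s N r hrl
        have e' : (2 * agr f s r : ℤ) = N * s + S r := by rw [hS]; exact e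
        have e2 : (2 * agr f s r : ℝ) = N * s + S r := by exact_mod_cast e'
        have h0' : (S r : ℝ) ≤ 0 := by exact_mod_cast h0
        rw [abs_of_nonpos h0'] at hsq
        rw [e2, hNr]
        linarith
    · refine ⟨r.map fun b => !b, ?_, ?_⟩
      · rw [hC]
        exact List.mem_append_right _ (List.mem_map.mpr ⟨r, hr, rfl⟩)
      · have e := two_agr f s N (r.map fun b => !b) (by rw [List.length_map, hrl])
        have e3 : (∑ x ∈ Finset.range N, if (r.map fun b => !b).getD x false = true then
            dif f s x else - dif f s x) = - S r := by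
          rw [hS, ← Finset.sum_neg_distrib]
          refine Finset.sum_congr rfl fun x hx => ?_
          have hxN : x < r.length := by rw [hrl]; exact Finset.mem_range.mp hx
          have e4 : (r.map fun b => !b).getD x false = !(r.getD x false) := by
            rw [List.getD_eq_getElem?_getD, List.getD_eq_getElem?_getD, List.getElem?_map,
              List.getElem?_eq_getElem hxN]
            rfl
          rw [e4]
          cases r.getD x false <;> simp
        rw [e3] at e
        have e2 : (2 * agr f s (r.map fun b => !b) : ℝ) = N * s + -S r := by exact_mod_cast e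
        have h0' : (0 : ℝ) ≤ (S r : ℝ) := by exact_mod_cast h0
        rw [abs_of_nonneg h0'] at hsq
        rw [e2, hNr]
        linarith
  obtain ⟨c, hc, hle⟩ := key
  obtain ⟨k, hk, rfl⟩ := List.getElem_of_mem hc
  have hpos : 0 < C.length := by omega
  obtain ⟨-, hmin⟩ := h2 (fun k => agr f s (C.getD k [])) C.length hpos
  have h5 := hmin k hk
  have e5 : C.getD k [] = C[k] := by
    rw [List.getD_eq_getElem?_getD, List.getElem?_eq_getElem hk]
    rfl
  simp only [e5] at h5
  have h6 : (agr f s (C.getD (argm (fun k => agr f s (C.getD k [])) C.length) []) : ℝ) ≤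
      agr f s C[k] := by exact_mod_cast h5
  linarith

end Pool.PG
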